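import Mathlib

/-!
# The 2-summing norm need not be smooth at an invertible operator

On `X = ℓ_∞^2` (real or complex) the operator `T (a, b) = (a + b, a - b)` is invertible and has
`π₂(T) = 2`, and the functionals `S ↦ (S (1, 1))₀` and `S ↦ (S (1, -1))₁` are two different
norm-one functionals on `Π₂(X, X)` taking the value `2` at `T`.
-/

set_option autoImplicit false

namespace Pool.Agent.Results.MP_0c20fd_an.NonsmoothAtInvertible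

variable {𝕜 : Type} [RCLike 𝕜] {X : Type} [NormedAddCommGroup X] [NormedSpace 𝕜 X]

/-- The weak 2-norm `sup { (∑ |f (x i)|²)^{1/2} : f ∈ X*, ‖f‖ ≤ 1 }` of a finite family. -/
noncomputable def weakTwoNorm (𝕜 : Type) [RCLike 𝕜] {X : Type} [NormedAddCommGroup X]
    [NormedSpace 𝕜 X] {m : ℕ} (x : Fin m → X) : ℝ :=
  sSup {r : ℝ | ∃ f : X →L[𝕜] 𝕜, ‖f‖ ≤ 1 ∧ r = Real.sqrt (∑ i, ‖f (x i)‖ ^ 2)}

/-- `C` is an admissible constant in the definition of the 2-summing norm of `T`. -/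
def TwoSummingBound (T : X →ₗ[𝕜] X) (C : ℝ) : Prop :=
  0 ≤ C ∧ ∀ (m : ℕ) (x : Fin m → X),
    Real.sqrt (∑ i, ‖T (x i)‖ ^ 2) ≤ C * weakTwoNorm 𝕜 x

/-- The 2-summing norm: the least admissible constant. -/
noncomputable def pi2 (T : X →ₗ[𝕜] X) : ℝ := sInf {C : ℝ | TwoSummingBound T C}

/-- `φ` is a functional of norm exactly one on `Π₂(X, X)`, i.e. on the space of all linear
operators on `X` with the norm `pi2`. -/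
def NormOne (φ : (X →ₗ[𝕜] X) →ₗ[𝕜] 𝕜) : Prop :=
  IsLUB {r : ℝ | ∃ S : X →ₗ[𝕜] X, pi2 S ≤ 1 ∧ r = ‖φ S‖} 1

lemma weakTwoNorm_bddAbove {m : ℕ} (x : Fin m → X) :
    BddAbove {r : ℝ | ∃ f : X →L[𝕜] 𝕜, ‖f‖ ≤ 1 ∧ r = Real.sqrt (∑ i, ‖f (x i)‖ ^ 2)} := by
  refine ⟨Real.sqrt (∑ i, ‖x i‖ ^ 2), ?_⟩
  rintro r ⟨f, hf, rfl⟩
  refine Real.sqrt_le_sqrt (Finset.sum_le_sum (fun i _ => ?_))
  have h1 : ‖f (x i)‖ ≤ ‖x i‖ := by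
    calc ‖f (x i)‖ ≤ ‖f‖ * ‖x i‖ := f.le_opNorm _
      _ ≤ 1 * ‖x i‖ := by gcongr
      _ = ‖x i‖ := one_mul _
  gcongr

lemma le_weakTwoNorm {m : ℕ} (x : Fin m → X) (f : X →L[𝕜] 𝕜) (hf : ‖f‖ ≤ 1) :
    ∑ i, ‖f (x i)‖ ^ 2 ≤ weakTwoNorm 𝕜 x ^ 2 := by
  have h1 : Real.sqrt (∑ i, ‖f (x i)‖ ^ 2) ≤ weakTwoNorm 𝕜 x :=
    le_csSup (weakTwoNorm_bddAbove x) ⟨f, hf, rfl⟩
  have h0 : 0 ≤ ∑ i, ‖f (x i)‖ ^ 2 := Finset.sum_nonneg (fun i _ => by positivity)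
  calc ∑ i, ‖f (x i)‖ ^ 2 = Real.sqrt (∑ i, ‖f (x i)‖ ^ 2) ^ 2 := (Real.sq_sqrt h0).symm
    _ ≤ weakTwoNorm 𝕜 x ^ 2 := by gcongr

lemma weakTwoNorm_nonneg {m : ℕ} (x : Fin m → X) : 0 ≤ weakTwoNorm 𝕜 x := by
  have h1 : Real.sqrt (∑ i, ‖(0 : X →L[𝕜] 𝕜) (x i)‖ ^ 2) ≤ weakTwoNorm 𝕜 x :=
    le_csSup (weakTwoNorm_bddAbove x) ⟨0, by simp, rfl⟩
  exact le_trans (Real.sqrt_nonneg _) h1

lemma weakTwoNorm_single (x : X) : weakTwoNorm 𝕜 (fun _ : Fin 1 => x) ≤ ‖x‖ := by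
  refine csSup_le ⟨_, 0, by simp, rfl⟩ ?_
  rintro r ⟨f, hf, rfl⟩
  simp only [Finset.univ_unique, Fin.default_eq_zero, Finset.sum_singleton]
  rw [Real.sqrt_sq (norm_nonneg _)]
  calc ‖f x‖ ≤ ‖f‖ * ‖x‖ := f.le_opNorm _
      _ ≤ 1 * ‖x‖ := by gcongr
      _ = ‖x‖ := one_mul _

/-- admissible constants bound the operator pointwise -/
lemma bound_apply {T : X →ₗ[𝕜] X} {C : ℝ} (h : TwoSummingBound T C) (x : X) :
    ‖T x‖ ≤ C * ‖x‖ := by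
  have h1 := h.2 1 (fun _ => x)
  simp only [Finset.univ_unique, Fin.default_eq_zero, Finset.sum_singleton] at h1
  rw [Real.sqrt_sq (norm_nonneg _)] at h1
  exact h1.trans (mul_le_mul_of_nonneg_left (weakTwoNorm_single x) h.1)

lemma pi2_le {T : X →ₗ[𝕜] X} {C : ℝ} (h : TwoSummingBound T C) : pi2 T ≤ C :=
  csInf_le ⟨0, fun _ h => h.1⟩ h

section example_space

/-- `ℓ_∞^2` -/
abbrev E (𝕜 : Type) [RCLike 𝕜] : Type := Fin 2 → 𝕜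

/-- a bound for a family of vectors of `ℓ_∞^2` -/
lemma sum_sq_le {m : ℕ} (x : Fin m → E 𝕜) (k : Fin 2) :
    ∑ i, ‖x i k‖ ^ 2 ≤ weakTwoNorm 𝕜 x ^ 2 := by
  have h := le_weakTwoNorm (𝕜 := 𝕜) x (ContinuousLinearMap.proj (R := 𝕜) (φ := fun _ : Fin 2 => 𝕜) k)
    (ContinuousLinearMap.opNorm_le_bound _ zero_le_one (fun y => by
      rw [one_mul]; exact norm_le_pi_norm y k))
  simpa using h

lemma twoSummingBound_of {T : E 𝕜 →ₗ[𝕜] E 𝕜} {K : ℝ} (hK : 0 ≤ K)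
    (h : ∀ y : E 𝕜, ‖T y‖ ≤ K * (‖y 0‖ + ‖y 1‖)) : TwoSummingBound T (2 * K) := by
  refine ⟨by positivity, fun m x => ?_⟩
  have hw := weakTwoNorm_nonneg (𝕜 := 𝕜) x
  rw [Real.sqrt_le_left (by positivity)]
  have h0 := sum_sq_le x 0
  have h1 := sum_sq_le x 1
  calc ∑ i, ‖T (x i)‖ ^ 2 ≤ ∑ i, (2 * K ^ 2 * (‖x i 0‖ ^ 2 + ‖x i 1‖ ^ 2)) := by
        refine Finset.sum_le_sum (fun i _ => ?_)
        have h2 := h (x i)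
        have h3 : ‖T (x i)‖ ^ 2 ≤ (K * (‖x i 0‖ + ‖x i 1‖)) ^ 2 := by gcongr
        have h4 : 0 ≤ K ^ 2 * (‖x i 0‖ - ‖x i 1‖) ^ 2 := by positivity
        nlinarith
    _ = 2 * K ^ 2 * (∑ i, ‖x i 0‖ ^ 2 + ∑ i, ‖x i 1‖ ^ 2) := by
        rw [← Finset.mul_sum, Finset.sum_add_distrib]
    _ ≤ 2 * K ^ 2 * (weakTwoNorm 𝕜 x ^ 2 + weakTwoNorm 𝕜 x ^ 2) := by gcongr
    _ = (2 * K * weakTwoNorm 𝕜 x) ^ 2 := by ring

lemma exists_bound (S : E 𝕜 →ₗ[𝕜] E 𝕜) : ∃ C, TwoSummingBound S C := by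
  refine ⟨2 * (‖S (Pi.single 0 1)‖ + ‖S (Pi.single 1 1)‖), twoSummingBound_of (by positivity) ?_⟩
  intro y
  have hy : y = y 0 • (Pi.single 0 1 : E 𝕜) + y 1 • (Pi.single 1 1 : E 𝕜) := by
    ext i; fin_cases i <;> simp
  calc ‖S y‖ = ‖y 0 • S (Pi.single 0 1) + y 1 • S (Pi.single 1 1)‖ := by
        conv_lhs => rw [hy]
        rw [map_add, map_smul, map_smul]
    _ ≤ ‖y 0‖ * ‖S (Pi.single 0 1)‖ + ‖y 1‖ * ‖S (Pi.single 1 1)‖ := by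
        refine (norm_add_le _ _).trans ?_
        rw [norm_smul, norm_smul]
    _ ≤ (‖S (Pi.single 0 1)‖ + ‖S (Pi.single 1 1)‖) * (‖y 0‖ + ‖y 1‖) := by
        have := norm_nonneg (S (Pi.single 0 1))
        have := norm_nonneg (S (Pi.single 1 1))
        have := norm_nonneg (y 0)
        have := norm_nonneg (y 1)
        nlinarith [mul_nonneg (norm_nonneg (S (Pi.single 0 1))) (norm_nonneg (y 1)),
          mul_nonneg (norm_nonneg (S (Pi.single 1 1))) (norm_nonneg (y 0))]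

lemma norm_apply_le (S : E 𝕜 →ₗ[𝕜] E 𝕜) (x : E 𝕜) (hx : ‖x‖ ≤ 1) : ‖S x‖ ≤ pi2 S := by
  obtain ⟨C, hC⟩ := exists_bound S
  refine le_csInf ⟨C, hC⟩ (fun D hD => ?_)
  calc ‖S x‖ ≤ D * ‖x‖ := bound_apply hD x
    _ ≤ D * 1 := mul_le_mul_of_nonneg_left hx hD.1
    _ = D := mul_one D

/-- the operator `(a, b) ↦ (a + b, a - b)` -/
noncomputable def T (𝕜 : Type) [RCLike 𝕜] : E 𝕜 ≃ₗ[𝕜] E 𝕜 where
  toFun x := ![x 0 + x 1, x 0 - x 1]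
  map_add' x y := by ext i; fin_cases i <;> simp <;> ring
  map_smul' c x := by ext i; fin_cases i <;> simp <;> ring
  invFun x := ![(x 0 + x 1) / 2, (x 0 - x 1) / 2]
  left_inv x := by ext i; fin_cases i <;> simp
  right_inv x := by ext i; fin_cases i <;> simp <;> ring

/-- evaluation functional `S ↦ (S x) k` -/
noncomputable def ev (x : E 𝕜) (k : Fin 2) : (E 𝕜 →ₗ[𝕜] E 𝕜) →ₗ[𝕜] 𝕜 where
  toFun S := S x k
  map_add' S S' := by simp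
  map_smul' c S := by simp

lemma norm_ev_le (x : E 𝕜) (hx : ‖x‖ ≤ 1) (k : Fin 2) (S : E 𝕜 →ₗ[𝕜] E 𝕜) :
    ‖ev x k S‖ ≤ pi2 S :=
  (norm_le_pi_norm (S x) k).trans (norm_apply_le S x hx)

lemma bound_T : TwoSummingBound (T 𝕜 : E 𝕜 →ₗ[𝕜] E 𝕜) 2 := by
  have h := twoSummingBound_of (T := (T 𝕜 : E 𝕜 →ₗ[𝕜] E 𝕜)) (K := 1) zero_le_one ?_
  · simpa using h
  · intro y
    rw [one_mul, pi_norm_le_iff_of_nonneg (by positivity)]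
    intro i
    fin_cases i
    · exact norm_add_le _ _
    · exact norm_sub_le _ _

lemma bound_half_T : TwoSummingBound ((2⁻¹ : 𝕜) • (T 𝕜 : E 𝕜 →ₗ[𝕜] E 𝕜)) 1 := by
  have h := twoSummingBound_of (T := (2⁻¹ : 𝕜) • (T 𝕜 : E 𝕜 →ₗ[𝕜] E 𝕜)) (K := 1 / 2)
    (by norm_num) ?_
  · simpa using h
  · intro y
    have h2 : ‖(T 𝕜 : E 𝕜 →ₗ[𝕜] E 𝕜) y‖ ≤ ‖y 0‖ + ‖y 1‖ := by
      rw [pi_norm_le_iff_of_nonneg (by positivity)]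
      intro i
      fin_cases i
      · exact norm_add_le _ _
      · exact norm_sub_le _ _
    rw [LinearMap.smul_apply, norm_smul]
    have h3 : ‖(2⁻¹ : 𝕜)‖ = 1 / 2 := by
      rw [norm_inv, RCLike.norm_ofNat]; norm_num
    rw [h3]
    gcongr

lemma normOne_ev (x : E 𝕜) (hx : ‖x‖ ≤ 1) (k : Fin 2)
    (hT : ev x k (T 𝕜 : E 𝕜 →ₗ[𝕜] E 𝕜) = 2) : NormOne (ev x k) := by
  constructor
  · rintro r ⟨S, hS, rfl⟩
    exact (norm_ev_le x hx k S).trans hS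
  · intro b hb
    refine hb ⟨(2⁻¹ : 𝕜) • (T 𝕜 : E 𝕜 →ₗ[𝕜] E 𝕜), pi2_le bound_half_T, ?_⟩
    rw [map_smul, hT]
    simp

lemma pi2_T (x : E 𝕜) (hx : ‖x‖ ≤ 1) (k : Fin 2)
    (hT : ev x k (T 𝕜 : E 𝕜 →ₗ[𝕜] E 𝕜) = 2) : pi2 (T 𝕜 : E 𝕜 →ₗ[𝕜] E 𝕜) = 2 := by
  refine le_antisymm (pi2_le bound_T) ?_
  have h := norm_ev_le x hx k (T 𝕜 : E 𝕜 →ₗ[𝕜] E 𝕜)
  rw [hT, RCLike.norm_ofNat] at h
  exact h

end example_space

/-- **Negative answer to Q1.**  Over `𝕜 = ℝ` or `ℂ` there are a finite-dimensional Banach space `X`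
and an invertible operator `T` on `X` with two distinct norm-one functionals on `Π₂(X, X)`
attaining the value `π₂(T)` at `T`. -/
theorem result (𝕜 : Type) [RCLike 𝕜] :
    ∃ (X : Type) (_ : NormedAddCommGroup X) (_ : NormedSpace 𝕜 X) (_ : FiniteDimensional 𝕜 X)
      (T : X ≃ₗ[𝕜] X) (φ ψ : (X →ₗ[𝕜] X) →ₗ[𝕜] 𝕜),
      φ ≠ ψ ∧ NormOne φ ∧ NormOne ψ ∧
      φ (T : X →ₗ[𝕜] X) = ((pi2 (T : X →ₗ[𝕜] X) : ℝ) : 𝕜) ∧
      ψ (T : X →ₗ[𝕜] X) = ((pi2 (T : X →ₗ[𝕜] X) : ℝ) : 𝕜) := by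
  have hx1 : ‖(![1, 1] : E 𝕜)‖ ≤ 1 := by
    rw [pi_norm_le_iff_of_nonneg zero_le_one]
    intro i; fin_cases i <;> simp
  have hx2 : ‖(![1, -1] : E 𝕜)‖ ≤ 1 := by
    rw [pi_norm_le_iff_of_nonneg zero_le_one]
    intro i; fin_cases i <;> simp
  have h1 : ev (![1, 1] : E 𝕜) 0 (T 𝕜 : E 𝕜 →ₗ[𝕜] E 𝕜) = 2 := by
    simp [ev, T]; norm_num
  have h2 : ev (![1, -1] : E 𝕜) 1 (T 𝕜 : E 𝕜 →ₗ[𝕜] E 𝕜) = 2 := by
    simp [ev, T]; norm_num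
  refine ⟨E 𝕜, inferInstance, inferInstance, inferInstance, T 𝕜, ev ![1, 1] 0, ev ![1, -1] 1,
    ?_, normOne_ev _ hx1 0 h1, normOne_ev _ hx2 1 h2, ?_, ?_⟩
  · intro h
    have h3 := congrArg (fun f => f (LinearMap.pi ![LinearMap.proj 0, 0])) h
    simp [ev] at h3
  · rw [h1, pi2_T _ hx1 0 h1]; exact (RCLike.ofReal_ofNat 2).symm
  · rw [h2, pi2_T _ hx1 0 h1]; exact (RCLike.ofReal_ofNat 2).symm

end Pool.Agent.Results.MP_0c20fd_an.NonsmoothAtInvertible
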